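import Pool.Agent.H86.GlmB

set_option autoImplicit false

namespace Pool.Agent.Results.MP_6c6b5e_an.GlimmInv

open Pool.Agent.H86.Glm

/-- the closed two-sided ideal of `A` generated by the set `S` -/
def closedIdeal {A : Type} [CStarAlgebra A] (S : Set A) : Set A :=
  closure (TwoSidedIdeal.span S : Set A)

theorem result (A B : Type) [CStarAlgebra A] [CStarAlgebra B] (T : A →ₗ[ℂ] B)
    (h1 : T 1 = 1) (hs : Function.Surjective T)
    (hr : ∀ x, spectralRadius ℂ (T x) = spectralRadius ℂ x)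
    (m : Ideal (Subalgebra.center ℂ A)) (hm : m.IsMaximal) :
    T '' closedIdeal (Subtype.val '' (m : Set (Subalgebra.center ℂ A))) ⊆
      closedIdeal (T '' (Subtype.val '' (m : Set (Subalgebra.center ℂ A)))) := by
  rintro _ ⟨x, hx, rfl⟩
  have hR : ∀ x R, 0 ≤ R → (Rle (T x) R ↔ Rle x R) := fun x R h => by
    rw [rle_iff h, rle_iff h, hr]
  let e : ZS A →+* Subalgebra.center ℂ A :=
    ⟨⟨⟨fun z => ⟨z.1, z.2⟩, rfl⟩, fun _ _ => rfl⟩, rfl, fun _ _ => rfl⟩
  let m' : Ideal (ZS A) := m.comap e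
  haveI : m'.IsMaximal := Ideal.comap_isMaximal_of_surjective e fun z => ⟨⟨z.1, z.2⟩, rfl⟩
  let J := TwoSidedIdeal.span (T '' (Subtype.val '' (m : Set (Subalgebra.center ℂ A))))
  have hJ : ∀ z ∈ m', T z ∈ J := fun z hz =>
    TwoSidedIdeal.subset_span ⟨_, ⟨e z, hz, rfl⟩, rfl⟩
  by_cases h0 : (1 : B) ∈ J
  · have h := J.mul_mem_left (T x) _ h0
    rw [mul_one] at h
    exact subset_closure h
  let n : Ideal (ZS B) := J.asIdeal.comap (ZS B).subtype.toRingHom
  let T' := LinearEquiv.ofBijective T ⟨map_inj T hR, hs⟩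
  have hx' : x ∈ W m' := by
    refine W_closure (closure_mono ?_ hx)
    refine TwoSidedIdeal.span_le.mpr ?_
    rintro _ ⟨z, hz, rfl⟩
    exact W_of_mem (z := ⟨z.1, z.2⟩) hz
  refine closure_of_W (m := n) (I := J) (fun z hz => hz) (W_map T' h1 hR
    (fun z hz => ⟨⟨T z, map_central T hs hR z⟩, hJ z hz, rfl⟩) (fun w hw => ?_) hx')
  let z : ZS A := ⟨T'.symm w, map_central (T'.symm : B →ₗ[ℂ] A) T'.symm.surjective
    (fun y R h => by rw [← hR _ R h]; exact iff_of_eq (congrArg (Rle · R)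
      (T'.apply_symm_apply y))) w⟩
  refine ⟨z, ?_, rfl⟩
  let χ := m'.toCharacterSpace
  have hk : ∀ y, χ y = 0 → y ∈ m' := by
    intro y hy
    have : m' = RingHom.ker (WeakDual.CharacterSpace.equivAlgHom χ) :=
      Ideal.IsMaximal.eq_of_le inferInstance (RingHom.ker_ne_top _)
        fun a ha => m'.toCharacterSpace_apply_eq_zero_of_mem ha
    rw [this]
    exact hy
  refine hk z (by_contra fun hc => h0 ?_)
  have h2 := hJ _ (hk (z - χ z • 1) (by simp))
  have h3 : T ((z - χ z • 1 : ZS A) : A) = w - χ z • 1 := by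
    change T (T'.symm w - χ z • 1) = _
    rw [map_sub, map_smul, h1]
    congr 1
    exact T'.apply_symm_apply w
  rw [h3] at h2
  have h4 := J.mul_mem_left (algebraMap ℂ B (χ z)⁻¹) _ (J.sub_mem hw h2)
  change _ * ((w : B) - _) ∈ J at h4
  rwa [sub_sub_cancel, ← Algebra.smul_def, smul_smul, inv_mul_cancel₀ hc, one_smul] at h4

end Pool.Agent.Results.MP_6c6b5e_an.GlimmInv
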